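import Mathlib

/-!
# Equal values of the sequences `H_a` and `H_b`

`H_42(49) = 1 + 49! / (7! * 42) = 1 + 47! / (2! * 45) = H_45(47)`.
-/

set_option autoImplicit false

namespace Pool.Agent.Results.MP_2d70c5_nt.EqualValues

open Equiv Equiv.Perm Finset

/-- `H d n` is the number of permutations of an `n`-element set in which every cycle has length `1`
or `d` (`cycleType` is the multiset of the lengths of the cycles of length at least two). -/
def H (d n : ℕ) : ℕ := Fintype.card {σ : Perm (Fin n) // ∀ c ∈ σ.cycleType, c = d}

/-- If `2 ≤ d ≤ n < 2 d`, then such a permutation is the identity or a single `d`-cycle. -/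
lemma H_eq {d n : ℕ} (hd : 2 ≤ d) (hdn : d ≤ n) (hn : n < 2 * d) :
    H d n = 1 + (d - 1).factorial * n.choose d := by
  have h1 := card_of_cycleType_singleton (α := Fin n) hd (by simpa using hdn)
  rw [Fintype.card_fin] at h1
  have h2 : H d n = #({g : Perm (Fin n) | ∀ c ∈ g.cycleType, c = d}) := by
    rw [H, Fintype.card_subtype]
  have h3 : ({g : Perm (Fin n) | ∀ c ∈ g.cycleType, c = d} : Finset (Perm (Fin n))) =
      ({1} : Finset (Perm (Fin n))) ∪ ({g : Perm (Fin n) | g.cycleType = {d}} :
        Finset (Perm (Fin n))) := by
    ext g
    simp only [mem_filter, mem_univ, true_and, mem_union, mem_singleton]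
    constructor
    · intro h
      have h4 : g.cycleType = Multiset.replicate (Multiset.card g.cycleType) d :=
        Multiset.eq_replicate_card.2 h
      have h5 : g.cycleType.sum ≤ n := by
        have := sum_cycleType g
        rw [this]
        simpa using card_le_univ g.support
      rw [h4, Multiset.sum_replicate, smul_eq_mul] at h5
      have h6 : Multiset.card g.cycleType < 2 := by
        by_contra hcon
        have : 2 * d ≤ Multiset.card g.cycleType * d := Nat.mul_le_mul_right _ (not_lt.1 hcon)
        omega
      interval_cases hc : Multiset.card g.cycleType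
      · left
        rwa [Multiset.card_eq_zero, cycleType_eq_zero] at hc
      · right
        rw [h4]
        rfl
    · rintro (rfl | h)
      · simp
      · rw [h]
        simp
  rw [h2, h3, card_union_of_disjoint, h1, card_singleton]
  rw [disjoint_singleton_left, mem_filter]
  rintro ⟨-, h⟩
  rw [cycleType_one] at h
  have := congrArg Multiset.card h
  simp at this

/-- There are integers `2 ≤ a < b`, `n ≥ a`, `m ≥ b` with `H_a(n) = H_b(m)`. -/
theorem result : ∃ a b n m : ℕ, 2 ≤ a ∧ a < b ∧ a ≤ n ∧ b ≤ m ∧ H a n = H b m := by
  refine ⟨42, 45, 49, 47, by norm_num, by norm_num, by norm_num, by norm_num, ?_⟩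
  rw [H_eq (by norm_num) (by norm_num) (by norm_num), H_eq (by norm_num) (by norm_num) (by norm_num)]
  decide +kernel

end Pool.Agent.Results.MP_2d70c5_nt.EqualValues
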